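import Pool.Agent.Helper89.Vol.Goals

/-! Packet V36-J: the planar inequality, assembly. -/

set_option autoImplicit false

namespace Pool.Agent.Helper64.Vol.PkJ

open Set Pool.Agent.Helper89.Vol

theorem thm (h1 : G_JA1) (h2 : G_JA2) (h3 : G_JB) (hn : G_NUM) : G_J := by
  intro C hC N k M g1 g2 S hN0 hN1 hk hM hg1 hg2 hS hkM hg hSS
  have hC1 : (1.17 : ℝ) ≤ C := by
    have a := hn.2.1
    have b := hC (379 / 1250) ⟨by norm_num, by norm_num⟩
    have c : (1.17 : ℝ) < 1.172453 := by norm_num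
    linarith
  have hg1' : g1 ≤ 1 := by nlinarith [sq_nonneg g2, sq_nonneg (g1 - 1)]
  by_cases hc : √(3 / 4 - N ^ 2) * g2 ≤ N * g1
  · have a := h1 N k M g1 g2 S hN0 hN1 hk hM hg1 hg2 hS hkM hg hSS hc
    have b := h2 N g1 hN0 hN1 hg1 hg1'
    rcases le_total N (9 / 25) with h | h
    · exact (a.trans (b.1 h)).trans (hC N ⟨hN0, hN1⟩)
    · exact (a.trans (b.2 h)).trans hC1
  · push Not at hc
    have hs : √(3 / 4 - N ^ 2) ≤ √3 / 2 := by
      rw [show √3 / 2 = √(3 / 4) by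
        rw [Real.sqrt_div (by norm_num), show (4 : ℝ) = 2 ^ 2 by norm_num,
          Real.sqrt_sq (by norm_num)]]
      exact Real.sqrt_le_sqrt (by nlinarith [sq_nonneg N])
    have hx : 2 * N * g1 ≤ √3 * g2 := by
      have := mul_le_mul_of_nonneg_right hs hg2
      linarith
    exact (h3 N k M g1 g2 S hN0 hN1 hk hM hg1 hg2 hS hkM hg hSS hx).trans hC1

end Pool.Agent.Helper64.Vol.PkJ
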